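import Mathlib

set_option autoImplicit false

namespace Pool.Agent.Results.MP_78a590_co.OrderFour

open Finset Matrix

/-- real Hadamard matrix of order `n` (entries `±1`, `H Hᵀ = n I`) -/
def IsHadamard {n : ℕ} (H : Matrix (Fin n) (Fin n) ℤ) : Prop :=
  (∀ i j, H i j = 1 ∨ H i j = -1) ∧ H * Hᵀ = (n : ℤ) • (1 : Matrix (Fin n) (Fin n) ℤ)

/-- `T` is a trade in `H` -/
def IsTrade {n : ℕ} (H : Matrix (Fin n) (Fin n) ℤ) (T : Finset (Fin n × Fin n)) : Prop :=
  ∃ H' : Matrix (Fin n) (Fin n) ℤ, IsHadamard H' ∧ H' ≠ H ∧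
    ∀ i j, ((i, j) ∈ T → H' i j ≠ H i j) ∧ ((i, j) ∉ T → H' i j = H i j)

/-- `T` is a rectangular trade in `H` -/
def IsRectTrade {n : ℕ} (H : Matrix (Fin n) (Fin n) ℤ) (T : Finset (Fin n × Fin n)) : Prop :=
  IsTrade H T ∧ ∃ A B : Finset (Fin n), T = A ×ˢ B

def H4 : Matrix (Fin 4) (Fin 4) ℤ := !![1, 1, 1, 1; 1, -1, 1, -1; 1, 1, -1, -1; 1, -1, -1, 1]

def H4' : Matrix (Fin 4) (Fin 4) ℤ := !![1, 1, 1, 1; 1, 1, -1, -1; 1, -1, -1, 1; 1, -1, 1, -1]

def T6 : Finset (Fin 4 × Fin 4) := {(1, 1), (1, 2), (2, 1), (2, 3), (3, 2), (3, 3)}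

def W : Finset (Fin 4 × Fin 4) := {(0, 1), (0, 2), (1, 0), (1, 1), (2, 0), (2, 2)}

def par (T : Finset (Fin 4 × Fin 4)) : ZMod 2 := ∑ x ∈ W, if x ∈ T then 1 else 0

theorem par_symmDiff (S T : Finset (Fin 4 × Fin 4)) : par (symmDiff S T) = par S + par T := by
  unfold par
  rw [← sum_add_distrib]
  apply sum_congr rfl
  intro x _
  by_cases h1 : x ∈ S <;> by_cases h2 : x ∈ T <;> simp [mem_symmDiff, h1, h2]
  decide

def neg (a b : Fin 4 → Bool) (i j : Fin 4) : ℤ := if a i && b j then -H4 i j else H4 i j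

theorem key : ∀ a b : Fin 4 → Bool,
    (∀ i k : Fin 4, i ≠ k → ∑ j, neg a b i j * neg a b k j = 0) →
      (∑ x ∈ W, if (a x.1 && b x.2) = true then (1 : ZMod 2) else 0) = 0 := by decide +kernel

theorem had4 : IsHadamard H4 := ⟨by decide, by decide +kernel⟩

theorem rect_par (T : Finset (Fin 4 × Fin 4)) (h : IsRectTrade H4 T) : par T = 0 := by
  obtain ⟨⟨H', hH', -, hT⟩, A, B, rfl⟩ := h
  have e : ∀ i j, H' i j = neg (fun i => decide (i ∈ A)) (fun j => decide (j ∈ B)) i j := by
    intro i j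
    unfold neg
    by_cases hij : (i, j) ∈ A ×ˢ B
    · have h1 := (hT i j).1 hij
      rw [mem_product] at hij
      simp only [hij.1, hij.2, decide_true, Bool.and_self, if_true]
      rcases hH'.1 i j with h2 | h2 <;> rcases had4.1 i j with h3 | h3 <;> omega
    · have h1 := (hT i j).2 hij
      rw [mem_product] at hij
      rw [if_neg (by simpa using hij), h1]
  have := key (fun i => decide (i ∈ A)) (fun j => decide (j ∈ B)) (by
    intro i k hik
    have := congrFun (congrFun hH'.2 i) k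
    simp only [Matrix.mul_apply, transpose_apply, Matrix.smul_apply, one_apply, hik, if_false, e] at this
    simpa using this)
  unfold par
  simpa [mem_product] using this

/-- In the Hadamard matrix of order four there is a trade that is not a symmetric difference of
rectangular trades. -/
theorem result :
    ∃ (n : ℕ) (H : Matrix (Fin n) (Fin n) ℤ) (T : Finset (Fin n × Fin n)),
      IsHadamard H ∧ IsTrade H T ∧
        ∀ L : List (Finset (Fin n × Fin n)), (∀ R ∈ L, IsRectTrade H R) →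
          L.foldr symmDiff ∅ ≠ T := by
  refine ⟨4, H4, T6, had4, ⟨H4', ⟨by decide, by decide +kernel⟩, by decide, by decide⟩, ?_⟩
  intro L hL h
  have h0 : par (L.foldr symmDiff ∅) = 0 := by
    clear h
    induction L with
    | nil => simp [par]
    | cons R L ih =>
      rw [List.foldr_cons, par_symmDiff, rect_par R (hL R (by simp)),
        ih fun R hR => hL R (by simp [hR]), add_zero]
  rw [h] at h0
  revert h0
  decide

end Pool.Agent.Results.MP_78a590_co.OrderFour
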